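import Pool.Agent.H24.UG.T7
import Pool.Agent.H32.AG.S2

/-!
UNIFORM LOCAL GAP (`MP_c59857_nt`): row US2 (the relation holds for the shifted selection,
uniformly in the shift), with a sign which depends on the prime.
-/

set_option autoImplicit false

open MeasureTheory ProbabilityTheory Filter Topology Finset
open scoped Nat ENNReal

namespace Pool.Agent.H60.UG

open Pool.Agent.H24.T2 (Pset)
open Pool.Agent.H24.UG
open Pool.Agent.H67.AG (avgP ul Inv Rt Av SA kap JJ TT InvZ nxt triv tow XN PN TN XX PX TX prX Fac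
  Tup dl Dlt Mis bd κ₀ Sw SwE)
open Pool.Agent.H32.AG (s2_meas_sel s2_shift_sum s2_av_shift s2_av_bd s2_iter_meas s2_av_meas
  s2_int s2_pre s2_shift Jx Jx_meas FF_meas FF_val FF_bd Ph Ps g_iter Ph_eq Ph_eq0 Ph_meas Ps_meas
  Ph_bd Ps_bd mv_meas mv_nn mv_bd Jx_move step1 step2 s2_avgP_mono s2_avgP_add s2_avgP_sum
  s2_avgP_const s2_avgP_bd s2_dvd)

section sec

variable {d : Sw} (e : SwE d)

theorem bd_real (s : ℝ) (hs : s = 1 ∨ s = -1) (y : Fin d.k → e.Ω → ℝ) (p t : ℕ) (A : Set e.Ω)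
    (hy : ∀ ω, ∏ i, y i (e.T^[(p - 1) * d.β i] ω) = Ph e p t ω) :
    e.P.real (A ∩ bd e.T d.β s y p) =
      (e.P.real A - s * ∫ ω in A, Ph e p t ω ∂e.P) / 2 := by
  have h0 : bd e.T d.β s y p = {ω | Ph e p t ω ≠ s} := by
    ext ω
    change ∏ i, y i (e.T^[(p - 1) * d.β i] ω) ≠ s ↔ Ph e p t ω ≠ s
    rw [hy]
  have hm : MeasurableSet {ω | Ph e p t ω ≠ s} :=
    (measurableSet_eq_fun (Ph_meas e p t) measurable_const).compl
  rw [h0]
  have h1 : e.P.real (A ∩ {ω | Ph e p t ω ≠ s}) =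
      ∫ ω in A, ({ω | Ph e p t ω ≠ s} : Set e.Ω).indicator (fun _ => (1 : ℝ)) ω ∂e.P := by
    rw [integral_indicator_const _ hm, smul_eq_mul, mul_one, measureReal_restrict_apply hm,
      Set.inter_comm]
  rw [h1]
  have h2 : ∀ ω, ({ω | Ph e p t ω ≠ s} : Set e.Ω).indicator (fun _ => (1 : ℝ)) ω =
      (1 - s * Ph e p t ω) / 2 := by
    intro ω
    have h3 : Ph e p t ω = 1 ∨ Ph e p t ω = -1 := FF_val _ _ _
    by_cases h4 : Ph e p t ω = s
    · rw [Set.indicator_of_notMem (by simpa using h4), h4]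
      rcases hs with h5 | h5 <;> rw [h5] <;> norm_num
    · rw [Set.indicator_of_mem (by simpa using h4)]
      rcases hs with h5 | h5 <;> rcases h3 with h6 | h6
      · exact absurd (h6.trans h5.symm) h4
      · rw [h5, h6]
        norm_num
      · rw [h5, h6]
        norm_num
      · exact absurd (h6.trans h5.symm) h4
  simp only [h2]
  rw [integral_div, integral_sub (integrable_const _)
    ((s2_int (Ph_meas e p t) (Ph_bd e p t)).const_mul _), integral_const_mul, integral_const,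
    smul_eq_mul, mul_one, measureReal_restrict_apply_univ]

/-- the estimate for one prime -/
theorem one_prime (σ : ℕ → ℝ) (hσ : Sgn σ) (L L'' p t : ℕ) (A : Set e.Ω) (hL : 0 < L)
    (hA : MeasurableSet[Inv e.T d.W] A) (hp : d.W ∣ p - 1) :
    |σ p| * e.P.real (A ∩ bd e.T d.β (σ p) (e.yt t) p) ≤
      |σ p| * e.P.real (A ∩ bd e.T d.β (σ p) e.ys p) +
      2 * d.k / (L : ℝ) * ∑ l ∈ range L, ∫ ω in A, e.mv l ω ∂e.P +
      ∑ j : Fin d.k → Fin d.n, ∫ ω in A, |Av d.T' d.W L (d.FF p j) (e.g ω) -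
        Av d.T' d.W L'' (d.FF p j) (e.g ω)| ∂e.P + t / (L'' : ℝ) := by
  have hM0 : 0 ≤ 2 * (d.k : ℝ) / (L : ℝ) * ∑ l ∈ range L, ∫ ω in A, e.mv l ω ∂e.P :=
    mul_nonneg (by positivity) (Finset.sum_nonneg fun l _ =>
      integral_nonneg fun ω => mv_nn e l ω)
  have hN0 : 0 ≤ ∑ j : Fin d.k → Fin d.n, ∫ ω in A, |Av d.T' d.W L (d.FF p j) (e.g ω) -
        Av d.T' d.W L'' (d.FF p j) (e.g ω)| ∂e.P :=
    Finset.sum_nonneg fun j _ => integral_nonneg fun ω => abs_nonneg _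
  have ht0 : 0 ≤ (t : ℝ) / (L'' : ℝ) := by positivity
  rcases hσ p with h0 | h0
  · rw [h0, abs_zero, zero_mul, zero_mul]
    linarith
  have habs : |σ p| = 1 := by
    rcases h0 with h0 | h0 <;> rw [h0] <;> norm_num
  rw [habs, one_mul, one_mul, bd_real e (σ p) h0 (e.yt t) p t A (Ph_eq e p t),
    bd_real e (σ p) h0 e.ys p 0 A (Ph_eq0 e p)]
  have h1 := step1 e L p t A hL hA hp
  have h2 := step1 e L p 0 A hL hA hp
  have h3 := step2 e L L'' p t A hA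
  set a := ∫ ω in A, Ph e p t ω ∂e.P
  set b := ∫ ω in A, Ph e p 0 ω ∂e.P
  set a' := ∫ ω in A, Ps e L p t ω ∂e.P
  set b' := ∫ ω in A, Ps e L p 0 ω ∂e.P
  set M := 2 * (d.k : ℝ) / (L : ℝ) * ∑ l ∈ range L, ∫ ω in A, e.mv l ω ∂e.P
  set N := ∑ j : Fin d.k → Fin d.n, ∫ ω in A, |Av d.T' d.W L (d.FF p j) (e.g ω) -
        Av d.T' d.W L'' (d.FF p j) (e.g ω)| ∂e.P
  have h4 : 2 * (t : ℝ) / (L'' : ℝ) = 2 * (t / (L'' : ℝ)) := by ring
  rw [h4] at h3
  rw [abs_le] at h1 h2 h3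
  rcases h0 with h5 | h5 <;> rw [h5] <;> linarith [h1.1, h1.2, h2.1, h2.2, h3.1, h3.2]

end sec

theorem pf_US2 (hul : Pool.Agent.H67.AG.T_UL) (_hpn : Pool.Agent.H67.AG.T_PN) : T_US2 := by
  intro d e σ L t A hσ hL hA
  obtain ⟨_, hmono, hadd, _, hconst⟩ := hul d.U
  obtain ⟨hlim', hmono', hadd', _, hconst'⟩ := hul (hyperfilter ℕ)
  set c₁ : ℝ := 2 * d.k / (L : ℝ) * ∑ l ∈ range L, ∫ ω in A, e.mv l ω ∂e.P with hc₁
  have hc₁0 : 0 ≤ c₁ := by
    refine mul_nonneg (by positivity) (Finset.sum_nonneg fun l _ => ?_)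
    exact integral_nonneg fun ω => mv_nn e l ω
  set h : (Fin d.k → Fin d.n) → ℕ → ℕ → ℝ := fun j L'' m => avgP d.W m fun p =>
    ∫ ω in A, |Av d.T' d.W L (d.FF p j) (e.g ω) - Av d.T' d.W L'' (d.FF p j) (e.g ω)| ∂e.P with hh
  have hint0 : ∀ (j : Fin d.k → Fin d.n) (L'' p : ℕ),
      |∫ ω in A, |Av d.T' d.W L (d.FF p j) (e.g ω) - Av d.T' d.W L'' (d.FF p j) (e.g ω)| ∂e.P| ≤
        2 := by
    intro j L'' p
    have hb : ∀ ω, ‖|Av d.T' d.W L (d.FF p j) (e.g ω) - Av d.T' d.W L'' (d.FF p j) (e.g ω)|‖ ≤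
        2 := by
      intro ω
      rw [Real.norm_eq_abs, abs_abs]
      have := abs_sub (Av d.T' d.W L (d.FF p j) (e.g ω)) (Av d.T' d.W L'' (d.FF p j) (e.g ω))
      linarith [s2_av_bd d.T' d.W L _ (FF_bd p j) (e.g ω),
        s2_av_bd d.T' d.W L'' _ (FF_bd p j) (e.g ω)]
    have h1 := norm_integral_le_of_norm_le_const (μ := e.P.restrict A)
      (Eventually.of_forall hb)
    rw [Real.norm_eq_abs, measureReal_restrict_apply_univ] at h1
    have h2 : e.P.real A ≤ 1 := measureReal_le_one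
    linarith
  have hhb : ∀ j L'' m, |h j L'' m| ≤ 2 := fun j L'' m =>
    s2_avgP_bd _ _ _ 2 (by norm_num) (fun p => hint0 j L'' p)
  have hPb : ∀ (y : Fin d.k → e.Ω → ℝ) (m : ℕ),
      |avgP d.W m fun p => |σ p| * e.P.real (A ∩ bd e.T d.β (σ p) y p)| ≤ 1 := fun y m =>
    s2_avgP_bd _ _ _ 1 (by norm_num) (fun p => by
      rw [abs_mul, abs_abs, abs_of_nonneg measureReal_nonneg]
      have h1 : |σ p| ≤ 1 := by
        rcases hσ p with h0 | h0 | h0 <;> rw [h0] <;> norm_num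
      exact mul_le_one₀ h1 measureReal_nonneg measureReal_le_one)
  -- the inequality for every `m` and `L''`
  have key : ∀ L'' m : ℕ, avgP d.W m (fun p => |σ p| * e.P.real (A ∩ bd e.T d.β (σ p) (e.yt t) p)) ≤
      avgP d.W m (fun p => |σ p| * e.P.real (A ∩ bd e.T d.β (σ p) e.ys p)) +
        (c₁ + t / (L'' : ℝ)) + ∑ j, h j L'' m := by
    intro L'' m
    have h1 := s2_avgP_mono d.W m _ _ (fun p hp => one_prime e σ hσ L L'' p t A hL hA (s2_dvd hp))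
    refine h1.trans ((s2_avgP_mono d.W m _ (fun p => (|σ p| * e.P.real (A ∩ bd e.T d.β (σ p) e.ys p) +
        (c₁ + t / (L'' : ℝ))) + ∑ j : Fin d.k → Fin d.n, ∫ ω in A,
        |Av d.T' d.W L (d.FF p j) (e.g ω) - Av d.T' d.W L'' (d.FF p j) (e.g ω)| ∂e.P)
        (fun p _ => le_of_eq (by rw [hc₁]; ring))).trans ?_)
    rw [s2_avgP_add, s2_avgP_add, s2_avgP_sum]
    have h3 := s2_avgP_const d.W m (c₁ + t / (L'' : ℝ)) (by positivity)
    exact add_le_add (add_le_add le_rfl h3) le_rfl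
  -- the limit over `m`
  have hsumb : ∀ (L'' : ℕ) (s : Finset (Fin d.k → Fin d.n)), ∃ C, ∀ m, |∑ j ∈ s, h j L'' m| ≤ C :=
    fun L'' s => ⟨∑ _j ∈ s, 2, fun m => (Finset.abs_sum_le_sum_abs _ _).trans
      (Finset.sum_le_sum fun j _ => hhb j L'' m)⟩
  have hsum : ∀ (L'' : ℕ) (s : Finset (Fin d.k → Fin d.n)),
      ul d.U (fun m => ∑ j ∈ s, h j L'' m) = ∑ j ∈ s, ul d.U (h j L'') := by
    intro L'' s
    induction s using Finset.induction_on with
    | empty => simpa using hconst 0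
    | insert a s ha ih =>
      simp only [Finset.sum_insert ha]
      rw [hadd (fun m => h a L'' m) (fun m => ∑ j ∈ s, h j L'' m) ⟨2, hhb a L''⟩ (hsumb L'' s), ih]
  have hl1 : ∀ L'' : ℕ, Lm d.U d.W e.P e.T d.β σ (e.yt t) A ≤
      Lm d.U d.W e.P e.T d.β σ e.ys A + (c₁ + t / (L'' : ℝ)) + ∑ j, ul d.U (h j L'') := by
    intro L''
    unfold Lm
    have hb1 : ∃ C, ∀ m, |avgP d.W m (fun p => |σ p| * e.P.real (A ∩ bd e.T d.β (σ p) (e.yt t) p))| ≤ C :=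
      ⟨1, hPb _⟩
    have hb2 : ∃ C, ∀ m, |avgP d.W m (fun p => |σ p| * e.P.real (A ∩ bd e.T d.β (σ p) e.ys p))| ≤ C :=
      ⟨1, hPb _⟩
    have hb3 : ∃ C : ℝ, ∀ _m : ℕ, |c₁ + t / (L'' : ℝ)| ≤ C := ⟨_, fun _ => le_rfl⟩
    have hb4 : ∃ C, ∀ m, |avgP d.W m (fun p => |σ p| * e.P.real (A ∩ bd e.T d.β (σ p) e.ys p)) +
        (c₁ + t / (L'' : ℝ))| ≤ C := by
      refine ⟨1 + |c₁ + t / (L'' : ℝ)|, fun m => (abs_add_le _ _).trans ?_⟩
      linarith [hPb e.ys m]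
    have hb5 : ∃ C, ∀ m, |avgP d.W m (fun p => |σ p| * e.P.real (A ∩ bd e.T d.β (σ p) e.ys p)) +
        (c₁ + t / (L'' : ℝ)) + ∑ j, h j L'' m| ≤ C := by
      obtain ⟨C1, hC1⟩ := hb4
      obtain ⟨C2, hC2⟩ := hsumb L'' Finset.univ
      exact ⟨C1 + C2, fun m => (abs_add_le _ _).trans (add_le_add (hC1 m) (hC2 m))⟩
    refine (hmono _ _ hb1 hb5 (Eventually.of_forall fun m => key L'' m)).trans ?_
    rw [hadd _ _ hb4 (hsumb L'' Finset.univ), hadd _ _ hb2 hb3, hconst, hsum]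
  -- the limit over `L''`
  have hub : ∀ j L'', |ul d.U (h j L'')| ≤ 2 := by
    intro j L''
    have h1 := hmono (h j L'') (fun _ => 2) ⟨2, hhb j L''⟩ ⟨2, fun _ => by norm_num⟩
      (Eventually.of_forall fun m => (abs_le.1 (hhb j L'' m)).2)
    have h2 := hmono (fun _ => -2) (h j L'') ⟨2, fun _ => by norm_num⟩ ⟨2, hhb j L''⟩
      (Eventually.of_forall fun m => (abs_le.1 (hhb j L'' m)).1)
    rw [hconst] at h1 h2
    exact abs_le.2 ⟨h2, h1⟩
  have hsumb' : ∀ (s : Finset (Fin d.k → Fin d.n)), ∃ C, ∀ L'', |∑ j ∈ s, ul d.U (h j L'')| ≤ C :=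
    fun s => ⟨∑ _j ∈ s, 2, fun L'' => (Finset.abs_sum_le_sum_abs _ _).trans
      (Finset.sum_le_sum fun j _ => hub j L'')⟩
  have hsum' : ∀ (s : Finset (Fin d.k → Fin d.n)),
      ul (hyperfilter ℕ) (fun L'' => ∑ j ∈ s, ul d.U (h j L'')) =
        ∑ j ∈ s, ul (hyperfilter ℕ) fun L'' => ul d.U (h j L'') := by
    intro s
    induction s using Finset.induction_on with
    | empty => simpa using hconst' 0
    | insert a s ha ih =>
      simp only [Finset.sum_insert ha]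
      rw [hadd' (fun L'' => ul d.U (h a L'')) (fun L'' => ∑ j ∈ s, ul d.U (h j L''))
        ⟨2, hub a⟩ (hsumb' s), ih]
  have ht0 : ul (hyperfilter ℕ) (fun L'' : ℕ => (t : ℝ) / (L'' : ℝ)) = 0 := by
    have hbt : ∃ C, ∀ L'' : ℕ, |(t : ℝ) / (L'' : ℝ)| ≤ C := by
      refine ⟨t, fun L'' => ?_⟩
      rw [abs_of_nonneg (by positivity)]
      rcases Nat.eq_zero_or_pos L'' with h0 | h0
      · rw [h0]
        simp
      · exact div_le_self (Nat.cast_nonneg t) (by exact_mod_cast h0)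
    have h1 := hlim' _ hbt
    have h2 : Tendsto (fun L'' : ℕ => (t : ℝ) / (L'' : ℝ)) (hyperfilter ℕ : Filter ℕ) (𝓝 0) :=
      (tendsto_const_div_atTop_nhds_zero_nat (t : ℝ)).mono_left Nat.hyperfilter_le_atTop
    exact tendsto_nhds_unique h1 h2
  have hbt : ∃ C, ∀ L'' : ℕ, |(t : ℝ) / (L'' : ℝ)| ≤ C := by
    refine ⟨t, fun L'' => ?_⟩
    rw [abs_of_nonneg (by positivity)]
    rcases Nat.eq_zero_or_pos L'' with h0 | h0
    · rw [h0]
      simp
    · exact div_le_self (Nat.cast_nonneg t) (by exact_mod_cast h0)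
  set R : ℝ := Lm d.U d.W e.P e.T d.β σ e.ys A + c₁ with hR
  have hfin := hmono' (fun _ => Lm d.U d.W e.P e.T d.β σ (e.yt t) A)
    (fun L'' => R + (t / (L'' : ℝ) + ∑ j, ul d.U (h j L''))) ⟨_, fun _ => le_rfl⟩ (by
      obtain ⟨C1, hC1⟩ := hbt
      obtain ⟨C2, hC2⟩ := hsumb' Finset.univ
      exact ⟨|R| + (C1 + C2), fun L'' => (abs_add_le _ _).trans (add_le_add le_rfl
        ((abs_add_le _ _).trans (add_le_add (hC1 L'') (hC2 L''))))⟩)
    (Eventually.of_forall fun L'' => by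
      have := hl1 L''
      change Lm d.U d.W e.P e.T d.β σ (e.yt t) A ≤
        R + (t / (L'' : ℝ) + ∑ j, ul d.U (h j L''))
      linarith)
  rw [hconst', hadd' (fun _ => R) _ ⟨_, fun _ => le_rfl⟩ (by
      obtain ⟨C1, hC1⟩ := hbt
      obtain ⟨C2, hC2⟩ := hsumb' Finset.univ
      exact ⟨C1 + C2, fun L'' => (abs_add_le _ _).trans (add_le_add (hC1 L'') (hC2 L''))⟩),
    hadd' _ _ hbt (hsumb' Finset.univ), hconst', ht0, zero_add, hsum'] at hfin
  exact hfin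

end Pool.Agent.H60.UG
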