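import Pool.Agent.H8.UG.TargetsF

/-!
# ubg_modules FNL: Theorem 1, final form
-/

set_option autoImplicit false

open CategoryTheory TensorProduct

namespace Pool.Agent.H60.UG

open Pool.Agent.H8.UB Pool.Agent.H56.UDs Pool.Agent.H8.UG

theorem card_max_le {a b : Ordinal.{0}} (ha : a.card ≤ Cardinal.aleph0)
    (hb : b.card ≤ Cardinal.aleph0) : (max a b).card ≤ Cardinal.aleph0 := by
  rcases le_total a b with h | h
  · rwa [max_eq_right h]
  · rwa [max_eq_left h]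

theorem pf_FNL (hFIN : T_FIN) (hUNC : G_UNC) (hGBC : G_GBC) (hALE : T_ALE) (hRIG : T_RIG) :
    G_FNL := by
  obtain ⟨β₁, hβ₁, hF, -⟩ := hFIN
  obtain ⟨β₂, hβ₂, hU⟩ := hUNC
  refine ⟨max β₁ (Ordinal.omega0 * β₂), ?_, ?_, ?_⟩
  · refine card_max_le hβ₁ ?_
    rw [Ordinal.card_mul, Ordinal.card_omega0]
    calc Cardinal.aleph0 * β₂.card ≤ Cardinal.aleph0 * Cardinal.aleph0 :=
          mul_le_mul_right hβ₂ _
      _ = Cardinal.aleph0 := Cardinal.aleph0_mul_aleph0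
  · intro k _ R _ _ _
    rcases hF k R with h | ⟨α, hα, h⟩
    · exact Or.inl h
    · exact Or.inr ⟨α, lt_of_lt_of_le hα (le_max_left _ _), h⟩
  · intro k k' K _ _ _ _ _ _ _ _ hfg R _ _ _
    obtain ⟨c, -, hG⟩ := hGBC k k'
    have hno : IsNoetherianRing Rᵐᵒᵖ := isNoetherian_of_tower k
      (inferInstance : IsNoetherian k Rᵐᵒᵖ)
    obtain ⟨hG1, hG2⟩ := hG R
    obtain ⟨n, s, ⟨e0⟩⟩ := hALE.1 k' (k' ⊗[k] R)ᵐᵒᵖ
    have h2 : UD (k' ⊗[k] R) = UDl (Al s) := hRIG _ _ e0.toRingEquiv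
    rcases hU K k' hfg n s with h | ⟨α, hα, h⟩
    · left
      rw [← hG1, h2, h]
    · right
      have h3 : UD (k' ⊗[k] R) = α := h2.trans h
      have h4 : UD R ≠ ⊤ := by
        intro h5
        rw [← hG1, h3] at h5
        exact WithTop.coe_ne_top h5
      obtain ⟨ρ, hρ⟩ := WithTop.ne_top_iff_exists.1 h4
      have h6 := (hG2 ρ α hρ.symm h3).2
      refine ⟨ρ, ?_, hρ.symm⟩
      refine lt_of_lt_of_le ?_ (le_max_right _ _)
      refine lt_of_lt_of_le (Order.lt_add_one_iff.2 le_rfl) (h6.trans ?_)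
      have h7 : α + 1 ≤ β₂ := Order.add_one_le_of_lt hα
      calc (c : Ordinal.{0}) * (α + 1) ≤ (c : Ordinal.{0}) * β₂ := mul_le_mul_right h7 _
        _ ≤ Ordinal.omega0 * β₂ := mul_le_mul_left (Ordinal.natCast_lt_omega0 c).le _

end Pool.Agent.H60.UG
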