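import Pool.Agent.H8.UG.Targets

/-!
# ubg_modules TWI: twists by automorphisms
-/

set_option autoImplicit false

open CategoryTheory TensorProduct

namespace Pool.Agent.H60.UG

open Pool.Agent.H8.UB Pool.Agent.H56.UDs Pool.Agent.H8.UG

/-- linear maps as morphisms -/
def mkHom {T : Type} [Ring T] (M N : FGModuleCat.{0} T) (f : M →ₗ[T] N) : M ⟶ N :=
  FGModuleCat.ofHom f

theorem mkHom_mem {T : Type} [Ring T] (A : Sub (UF T)) (M N : FGModuleCat.{0} T) (f : M →ₗ[T] N)
    (x : M) (hx : (show (UF T).obj M from x) ∈ A.car M) :
    (show (UF T).obj N from f x) ∈ A.car N := A.map_mem (mkHom M N f) x hx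

theorem sub_ext {T : Type} [Ring T] {A B : Sub (UF T)}
    (h : ∀ (M : FGModuleCat.{0} T) (x : (UF T).obj M), x ∈ A.car M ↔ x ∈ B.car M) : A = B := by
  cases A
  cases B
  congr
  funext M
  ext x
  exact h M x

theorem twist {T : Type} [Ring T] (σ : T ≃+* T) (A : Sub (UF T)) :
    rsSub (finHom_equiv σ) (rsSub (finHom_equiv σ.symm) A) = A := by
  apply sub_ext
  intro M x
  constructor
  · intro hx
    exact mkHom_mem A ((resF (finHom_equiv σ.symm)).obj ((resF (finHom_equiv σ)).obj M)) M
      { toFun := fun x => x
        map_add' := fun _ _ => rfl
        map_smul' := fun r x => by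
          have e : σ (σ.symm r) = r := σ.apply_symm_apply r
          have : ∀ (s : T), s = r → ∀ y : M, s • y = r • y := by
            intro s hs y
            rw [hs]
          exact this _ e x } x hx
  · intro hx
    exact mkHom_mem A M ((resF (finHom_equiv σ.symm)).obj ((resF (finHom_equiv σ)).obj M))
      { toFun := fun x => x
        map_add' := fun _ _ => rfl
        map_smul' := fun r x => by
          have e : σ (σ.symm r) = r := σ.apply_symm_apply r
          have : ∀ (s : T), s = r → ∀ y : M, r • y = s • y := by
            intro s hs y
            rw [hs]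
          exact this _ e x } x hx

theorem pf_TWI : G_TWI := by
  intro T _ σ
  refine ⟨?_, twist σ, ?_, ?_⟩
  · intro A B hAB M x hx
    exact hAB _ hx
  · intro A
    exact twist σ.symm A
  · intro S _ f hf hfix A
    apply sub_ext
    intro M x
    constructor
    · intro hx
      exact mkHom_mem A ((resF hf).obj ((resF (finHom_equiv σ)).obj M)) ((resF hf).obj M)
        { toFun := fun x => x
          map_add' := fun _ _ => rfl
          map_smul' := fun r x => by
            have : ∀ (s t : T), s = t → ∀ y : M, s • y = t • y := by
              intro s t hs y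
              rw [hs]
            exact this _ _ (hfix r) x } x hx
    · intro hx
      exact mkHom_mem A ((resF hf).obj M) ((resF hf).obj ((resF (finHom_equiv σ)).obj M))
        { toFun := fun x => x
          map_add' := fun _ _ => rfl
          map_smul' := fun r x => by
            have : ∀ (s t : T), s = t → ∀ y : M, s • y = t • y := by
              intro s t hs y
              rw [hs]
            exact this _ _ (hfix r).symm x } x hx

end Pool.Agent.H60.UG
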