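import Pool.Agent.H24.UG.T7
import Pool.Agent.H60.AG.S3b

/-!
UNIFORM LOCAL GAP (`MP_c59857_nt`): row US3b, the dichotomy for the shifted selection.
-/

set_option autoImplicit false

open MeasureTheory ProbabilityTheory Filter Topology Finset
open scoped Nat ENNReal

namespace Pool.Agent.H60.UG

open Pool.Agent.H24.UG
open Pool.Agent.H67.AG (avgP ul Inv Rt Av SA kap JJ TT InvZ nxt triv tow XN PN TN XX PX TX prX Fac
  Tup dl Dlt Mis bd κ₀ Sw SwE)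
open Pool.Agent.H60.AG (tup_sel tup_ys tup_yt)

theorem pf_US3b (hdw : T_UDW) (h2 : T_US2) (h3 : Pool.Agent.H67.AG.T_S3) : T_US3b := by
  intro d e σ γ L L₂ t A hσ hγ hL hL₂ hA
  have h := hdw e.Ω e.P e.T d.k d.β σ γ d.w d.W d.U e.ys (e.yt t) A e.mp d.inj hσ hγ d.hw d.hW
    d.hd d.hU (tup_ys e) (tup_yt e t) hA
  have h2' := h2 d e σ L t A hσ hL hA
  have h3' : (d.k : ℝ) * ∑ i, ∫ ω in A, |(e.P[dl e.ys (e.yt t) i | Inv e.T (d.W * Dlt d.β)]) ω -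
      (e.P[dl e.ys (e.yt t) i | Inv e.T d.W]) ω| ∂e.P ≤ d.k * ∑ i, e.E3 L₂ i A := by
    refine mul_le_mul_of_nonneg_left ?_ (Nat.cast_nonneg _)
    exact Finset.sum_le_sum fun i _ => h3 d e L₂ t i A hL₂ hA
  unfold EX
  linarith

end Pool.Agent.H60.UG
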